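import Pool.Agent.Q174.TB.Log

/-!
# Log-concavity of the Alexander polynomials of two-bridge links
-/

set_option autoImplicit false

namespace Pool.Agent.Results.MP_2b0227_gt.TwoBridge

open Pool.Agent.Helper454.Wh
open Q174.TBD

/-- The Conway polynomial exists, and the Alexander polynomial of every two-bridge link is
log-concave. -/
theorem result :
    (∃ Λ : OWord → LaurentPolynomial ℤ, IsConway Λ) ∧
    ∀ Λ : OWord → LaurentPolynomial ℤ, IsConway Λ → ∀ K : OWord, IsTwoBridgeLink K →
      ∃ Δ : LaurentPolynomial ℤ, IsAlexander Λ K Δ ∧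
        ∀ k : ℤ, Δ.coeff (k + 2) * Δ.coeff (k - 2) ≤ Δ.coeff k ^ 2 :=
  ⟨exists_conway, fun _ hΛ _ hK => log_concave hΛ hK⟩

end Pool.Agent.Results.MP_2b0227_gt.TwoBridge
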